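import Pool.Agent.LRN.StmtsB
import Pool.Agent.Helper98_LRN.FFX
import Pool.Agent.Helper7_LRS.EXT

/-!
# Squad LRN, row UNR: short units of a subfield
-/

set_option autoImplicit false

namespace Pool.Agent.LRN.H7

open Polynomial NumberField
open Pool.Agent.LRG
open Pool.Agent.LRN

section group

variable {G : Type} [CommGroup G] {s : ℕ} (v : Fin s → G)

/-- a power of `x` is a product of powers of the `v j` -/
def Pw (x : G) : Prop := ∃ (m : ℕ) (c : Fin s → ℤ), 0 < m ∧ x ^ m = ∏ j, v j ^ c j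

theorem Pw.mul {x y : G} (hx : Pw v x) (hy : Pw v y) : Pw v (x * y) := by
  obtain ⟨m, c, hm, hc⟩ := hx
  obtain ⟨k, d, hk, hd⟩ := hy
  refine ⟨m * k, fun j => c j * k + d j * m, Nat.mul_pos hm hk, ?_⟩
  rw [mul_pow, pow_mul, hc, mul_comm m k, pow_mul, hd, ← Finset.prod_pow, ← Finset.prod_pow,
    ← Finset.prod_mul_distrib]
  refine Finset.prod_congr rfl fun j _ => ?_
  rw [zpow_add, zpow_mul, zpow_mul, zpow_natCast, zpow_natCast]

theorem Pw.one : Pw v (1 : G) := ⟨1, 0, one_pos, by simp⟩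

theorem Pw.zpow {x : G} (hx : Pw v x) (a : ℤ) : Pw v (x ^ a) := by
  obtain ⟨m, c, hm, hc⟩ := hx
  refine ⟨m, fun j => c j * a, hm, ?_⟩
  rw [← zpow_natCast, ← zpow_mul, mul_comm a, zpow_mul, zpow_natCast, hc, ← Finset.prod_zpow]
  refine Finset.prod_congr rfl fun j _ => ?_
  rw [zpow_mul]

theorem Pw.prod {r : ℕ} (w : Fin r → G) (h : ∀ i, Pw v (w i)) (c : Fin r → ℤ) :
    Pw v (∏ i, w i ^ c i) := by
  refine Finset.prod_induction (fun i => w i ^ c i) (Pw v) (fun a b ha hb => Pw.mul v ha hb)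
    (Pw.one v) (fun i _ => Pw.zpow v (h i) (c i))

theorem Pw.root {x : G} {k : ℕ} (hk : 0 < k) (hx : Pw v (x ^ k)) : Pw v x := by
  obtain ⟨m, c, hm, hc⟩ := hx
  exact ⟨k * m, c, Nat.mul_pos hk hm, by rw [pow_mul]; exact hc⟩

theorem prod_zpow_sum {ι : Type} (x : G) (S : Finset ι) (n : ι → ℤ) :
    ∏ a ∈ S, x ^ n a = x ^ (∑ a ∈ S, n a) := by
  classical
  induction S using Finset.induction_on with
  | empty => simp
  | insert a S ha ih => rw [Finset.prod_insert ha, Finset.sum_insert ha, zpow_add, ih]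

/-- few generators: more elements are dependent -/
theorem dep_of_lt {t : ℕ} (g : Fin t → G) (h : ∀ a, Pw v (g a)) (hst : s < t) :
    ∃ z : Fin t → ℤ, z ≠ 0 ∧ ∏ a, g a ^ z a = 1 := by
  choose m c hm hc using h
  let L : (Fin t → ℤ) →ₗ[ℤ] (Fin s → ℤ) :=
    { toFun := fun z j => ∑ a, z a * c a j
      map_add' := by
        intro z z'
        funext j
        simp only [Pi.add_apply, add_mul, Finset.sum_add_distrib]
      map_smul' := by
        intro k z
        funext j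
        simp only [Pi.smul_apply, smul_eq_mul, Finset.mul_sum, mul_assoc, RingHom.id_apply] }
  have hker : LinearMap.ker L ≠ ⊥ := by
    intro hbot
    have h1 := LinearMap.finrank_le_finrank_of_injective (LinearMap.ker_eq_bot.mp hbot)
    rw [Module.finrank_fin_fun, Module.finrank_fin_fun] at h1
    omega
  obtain ⟨z, hz, hz0⟩ := (Submodule.ne_bot_iff _).mp hker
  rw [LinearMap.mem_ker] at hz
  refine ⟨fun a => m a * z a, ?_, ?_⟩
  · intro h0
    apply hz0
    funext a
    have h1 := congrFun h0 a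
    have h2 : (m a : ℤ) * z a = 0 := h1
    rcases mul_eq_zero.mp h2 with h3 | h3
    · have := hm a
      omega
    · exact h3
  · have h1 : ∀ a, g a ^ ((m a : ℤ) * z a) = ∏ j, v j ^ (z a * c a j) := by
      intro a
      rw [zpow_mul, zpow_natCast, hc a, ← Finset.prod_zpow]
      refine Finset.prod_congr rfl fun j _ => ?_
      rw [← zpow_mul, mul_comm (c a j)]
    simp only [h1]
    rw [Finset.prod_comm]
    refine Finset.prod_eq_one fun j _ => ?_
    have h2 : ∑ a, z a * c a j = 0 := congrFun hz j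
    have h3 : ∏ a, v j ^ (z a * c a j) = v j ^ (∑ a, z a * c a j) :=
      prod_zpow_sum (v j) _ _
    rw [h3, h2, zpow_zero]

end group

/-- the fundamental units are independent -/
theorem fund_indep (F : Type) [Field F] [NumberField F] : Indep (Units.fundSystem F) := by
  intro c hc
  obtain ⟨z, hz, huniq⟩ := Units.exist_unique_eq_mul_prod F (1 : (𝓞 F)ˣ)
  have h1 := huniq (1, c) (by simpa using hc.symm)
  have h2 := huniq (1, 0) (by simp)
  have h3 := h1.trans h2.symm
  exact (Prod.mk.inj h3).2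

theorem unr : UnrStmt := by
  intro F K _ _ _ _ _ X u hX hu hb
  have hfin : FiniteDimensional F K := Module.Finite.of_restrictScalars_finite ℚ F K
  let N : (𝓞 K)ˣ →* (𝓞 F)ˣ := Units.map (RingOfIntegers.norm F : 𝓞 K →* 𝓞 F)
  have hN : ∀ x : (𝓞 K)ˣ, ((N x : 𝓞 F) : F) = Algebra.norm F ((x : 𝓞 K) : K) := fun x => rfl
  let A : (𝓞 F)ˣ →* (𝓞 K)ˣ := Units.map (algebraMap (𝓞 F) (𝓞 K) : 𝓞 F →* 𝓞 K)
  have hNA : ∀ y : (𝓞 F)ˣ, N (A y) = y ^ Module.finrank F K := by
    intro y
    apply Units.ext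
    show RingOfIntegers.norm F (algebraMap (𝓞 F) (𝓞 K) (y : 𝓞 F)) = _
    rw [RingOfIntegers.norm_algebraMap, Units.val_pow_eq_pow_val]
  have hpos : 0 < Module.finrank F K := Module.finrank_pos
  obtain ⟨s, f, hs, hind, hspan⟩ := Pool.Agent.LRS.H7.ext_ F (Units.rank K) (fun i => N (u i))
  have hall : ∀ y : (𝓞 F)ˣ, Pw (fun j => N (u (f j))) y := by
    intro y
    obtain ⟨m, c, hm, hc⟩ := Pool.Agent.LRS.H7.frk K (Units.rank K) u rfl hu (A y)
    have h1 : (y ^ Module.finrank F K) ^ m = ∏ i, N (u i) ^ c i := by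
      rw [← hNA, ← map_pow, hc, map_prod]
      refine Finset.prod_congr rfl fun i _ => ?_
      rw [map_zpow]
    refine Pw.root _ hpos (Pw.root _ hm ?_)
    rw [h1]
    exact Pw.prod _ (fun i => N (u i)) hspan c
  have hs1 : s ≤ Units.rank F := Pool.Agent.LRN.H98.indep_le_rank _ hind
  have hs2 : Units.rank F ≤ s := by
    by_contra hcon
    push Not at hcon
    obtain ⟨z, hz, hz1⟩ := dep_of_lt (fun j => N (u (f j))) (Units.fundSystem F)
      (fun a => hall _) hcon
    exact hz (fund_indep F z hz1)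
  have hseq : s = Units.rank F := le_antisymm hs1 hs2
  subst hseq
  refine ⟨fun j => N (u (f j)), hind, ?_⟩
  intro j σ
  rw [hN]
  let _ : Algebra F ℂ := σ.toAlgebra
  have h1 : σ (Algebra.norm F ((u (f j) : 𝓞 K) : K)) =
      ∏ τ : K →ₐ[F] ℂ, τ ((u (f j) : 𝓞 K) : K) :=
    Algebra.norm_eq_prod_embeddings F ℂ ((u (f j) : 𝓞 K) : K)
  rw [h1, norm_prod]
  have h2 : ∏ τ : K →ₐ[F] ℂ, ‖τ ((u (f j) : 𝓞 K) : K)‖ ≤ ∏ _τ : K →ₐ[F] ℂ, X := by
    refine Finset.prod_le_prod (fun τ _ => norm_nonneg _) fun τ _ => ?_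
    exact hb (f j) (τ : K →+* ℂ)
  refine le_trans h2 ?_
  rw [Finset.prod_const, Finset.card_univ, AlgHom.card]
  refine pow_le_pow_right₀ hX ?_
  rw [← Module.finrank_mul_finrank ℚ F K]
  exact Nat.le_mul_of_pos_left _ Module.finrank_pos

end Pool.Agent.LRN.H7
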